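import Pool.Agent.H22.SEP.EXN

/-!
Project SEP, module EXC: extending the branch of a code.
-/

set_option linter.unusedVariables false
set_option synthInstance.maxSize 100000

namespace SW.SEP

open SW

theorem exc_LL {M : Type} [SetStr M] [ZF M] {a c' i c : M} (h1 : E a om) (h2 : E c' om)
    (h3 : E i two) (h4 : E c om) : E (cdv a c' i c) (LL : M) := by
  unfold LL cdv
  rw [mem_bun, mem_prod, mem_sing, mem_prod, mem_prod, mem_prod]
  simp only [mem_prod, mem_sing]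
  exact Or.inr ⟨trivial, h1, h2, h3, h4⟩

/-- one step for a code -/
theorem exc_step {M : Type} [SetStr M] [ZF M] (at_ : AtFacts M) (ps : PsFacts M) (sq : SqFacts M)
    (nod : NODStmt) (exn : EXNStmt) {I p B r q x i t : M} (hI : Sy I) (hp : E p (PS I))
    (he : E (cod B r q x i t) I) (hqp : Sub q p) :
    ∃ p' v, E p' (PS I) ∧ Sub p p' ∧ E (lV (cod B r q x i t) v) p' ∧ E emp (dmn v) ∧
      ∀ w n, E (lV (cod B r q x i t) w) p → E n om → E n (dmn w) → E (suc n) (dmn v) := by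
  obtain ⟨v, hv, hm⟩ := ex_max at_ ps sq (e := cod B r q x i t) hp
  have hmom : E (dmn v) om := (sq.dm hv).1
  obtain ⟨hB1, hB2, hBI, hBS, hrB, hrn, hqB, hxB, hTot, hFun, hi⟩ := at_.sycd hI he
  have hqr : Sub q (rJ B p) := by
    have h1 := ps.rself hqB (Sub.refl B)
    rw [← h1]
    exact ps.rmono hqp
  have hpB := ps.rst (J := B) hI hBS hp
  obtain ⟨r', q', a0, hr', hrr, hqr', hx'⟩ := hTot (rJ B p) hpB hqr (dmn v) hmom
  have hp1 := ps.ama hI hBS hp hr' hrr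
  have hIB : bun I B = I := ext fun z => by
    rw [mem_bun]
    exact ⟨fun h => h.elim id (hBI z), Or.inl⟩
  rw [hIB] at hp1
  have heB : ¬ E (cod B r q x i t) B := by
    have := at_.nself (e := cod B r q x i t)
    rwa [bs_cod] at this
  have hm1 : ∀ w, E (lV (cod B r q x i t) w) (bun p r') → E (lV (cod B r q x i t) w) p := by
    intro w hw
    rcases mem_bun.1 hw with h | h
    · exact h
    · exact absurd (ps.lVm hr' h).1 heB
  obtain ⟨p2, v', h1, h2, h3, h4, h5⟩ := exn M I (bun p r') r (dmn v) hI hp1 (hBI _ hrB) hrn hmom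
  have hp2 : Sub p p2 := Sub.trans (fun z hz => mem_bun.2 (Or.inl hz)) h2
  have hm2 : MaxN p2 (cod B r q x i t) v := by
    have h6 : ∀ w, E (lV (cod B r q x i t) w) p2 → E (lV (cod B r q x i t) w) p := fun w hw => by
      rcases h5 _ w hw with h | h
      · exact hm1 w h
      · rw [h] at heB
        exact absurd hrB heB
    rcases hm with ⟨h7, h8⟩ | ⟨h7, h8⟩
    · exact Or.inl ⟨h7, fun w hw => h8 w (h6 w hw)⟩
    · exact Or.inr ⟨hp2 _ h7, fun w hw => h8 w (h6 w hw)⟩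
  obtain ⟨y, hy⟩ := mem_dmn.1 h4
  obtain ⟨c', hc', rfl⟩ := (mem_PS.1 h1).2.2.2.2.1 r v' h3 hrn _ _ hy
  have ha0 : E a0 om := by
    obtain ⟨q1, a1, _, h6, h7⟩ := hxB.2 _ hx'
    rw [opair_inj] at h7
    rw [← h7.2, mem_prod] at h6
    exact h6.2
  have hg : Fn1 (fun t : M => SW.SEP.p2 (SW.SEP.p2 (SW.SEP.p2 (SW.SEP.p2 t)))) := by
    infer_instance
  obtain ⟨c, hc, -, hc2⟩ := ex_val at_ sq (ps.fnt h1) finF.emp hv (fun c => cdv a0 c' i c) _
    (fun c hc => exc_LL ha0 hc' hi hc) hg (fun c => by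
      show SW.SEP.p2 (SW.SEP.p2 (SW.SEP.p2 (SW.SEP.p2 (cdv a0 c' i c)))) = c
      unfold cdv
      simp only [p2_opair])
  obtain ⟨p3, h6, h7, h8, h9, -, -⟩ := nod M I p2 (cod B r q x i t) v (cdv a0 c' i c) hI h1 he hv
    (exc_LL ha0 hc' hi hc) hm2 (fun h => absurd ⟨B, r, q, x, i, t, rfl⟩ (at_.nc h))
    (by
      intro B1 r1 q1 x1 i1 t1 h10
      obtain ⟨rfl, rfl, rfl, rfl, rfl, rfl⟩ := at_.cd.1 h10
      exact ⟨hqp.trans hp2, a0, c', c, ha0, hc', hc, rfl,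
        ⟨q', hqr'.trans (Sub.trans (fun z hz => mem_bun.2 (Or.inr hz)) h2), hx'⟩, v', h3, hy⟩) hc2
  have hd := (sq.sxx (A := LL) hv (exc_LL ha0 hc' hi hc)).2.1
  refine ⟨p3, _, h6, hp2.trans h7, h8, ?_, ?_⟩
  · rw [hd, mem_suc]
    by_cases h : dmn v = emp
    · exact Or.inr h.symm
    · exact Or.inl (emp_mem_ord (Ord_nat hmom) h)
  · intro w n hw hn hnw
    rw [hd]
    have h12 : Sub w v := by
      rcases hm with ⟨_, h⟩ | ⟨_, h⟩
      · exact absurd hw (h w)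
      · exact h w hw
    have h13 : E n (dmn v) := by
      obtain ⟨y, hy⟩ := mem_dmn.1 hnw
      exact mem_dmn.2 ⟨y, h12 _ hy⟩
    exact (suc_mem_suc (Ord_nat hn) (Ord_nat hmom)).2 h13

theorem sep_exc (atm : ATMStmt) (psf : PSFStmt) (sqf : SQFStmt) (nod : NODStmt)
    (exn : EXNStmt) : EXCStmt := by
  intro M _ _ I p B r q x i t n hI hp he hqp hnom
  have at_ : AtFacts M := atm M
  have ps : PsFacts M := psf M
  have sq : SqFacts M := sqf M
  refine om_ind (C := fun n : M => ∃ p' v, E p' (PS I) ∧ Sub p p' ∧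
    E (lV (cod B r q x i t) v) p' ∧ E n (dmn v)) ?_ ?_ ?_ n hnom
  · infer_instance
  · obtain ⟨p', v, h1, h2, h3, h4, _⟩ := exc_step at_ ps sq nod exn hI hp he hqp
    exact ⟨p', v, h1, h2, h3, h4⟩
  · rintro n hn ⟨p', v, h1, h2, h3, h4⟩
    obtain ⟨p'', v', h5, h6, h7, _, h8⟩ := exc_step at_ ps sq nod exn hI h1 he (hqp.trans h2)
    exact ⟨p'', v', h5, h2.trans h6, h7, h8 v n h3 hn h4⟩

end SW.SEP
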