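import Pool.Agent.H22.SEP.EXN

/-!
Project SEP, modules EXF (adding a promise) and EXD (making branches different).
-/

set_option linter.unusedVariables false
set_option synthInstance.maxSize 100000

namespace SW.SEP

open SW

theorem sep_exf (atm : ATMStmt) (psf : PSFStmt) (sqf : SQFStmt) : EXFStmt := by
  intro M _ _ I p e z hI hp he hz
  have at_ : AtFacts M := atm M
  have ps : PsFacts M := psf M
  have sq : SqFacts M := sqf M
  obtain ⟨v, hv, hm⟩ := ex_max at_ ps sq (e := e) hp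
  obtain ⟨j, hj⟩ : ∃ j, j = dmn v := ⟨_, rfl⟩
  have hjom : E j om := by rw [hj]; exact (sq.dm hv).1
  have hcp : Cond I p := mem_PS.1 hp
  obtain ⟨q, hq⟩ : ∃ q, q = ins (lF e z j) p := ⟨_, rfl⟩
  have hmq : ∀ t : M, E t q ↔ E t p ∨ t = lF e z j := by
    intro t
    rw [hq, mem_ins]
  have hpq : Sub p q := fun t ht => (hmq t).2 (Or.inl ht)
  have hV : ∀ e' v' : M, E (lV e' v') q → E (lV e' v') p := by
    intro e' v' h
    rcases (hmq _).1 h with h | h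
    · exact h
    · exact absurd h at_.VF
  have hR : ∀ s τ b : M, E (gR s τ b) q → E (gR s τ b) p := by
    intro s τ b h
    rcases (hmq _).1 h with h | h
    · exact h
    · exact absurd h at_.RF
  refine ⟨q, j, mem_PS.2 ⟨⟨?_, ?_⟩, ?_, ?_, ?_, ?_, ?_⟩, hpq, hjom, (hmq _).2 (Or.inr rfl)⟩
  · rw [hq]
    exact finF.ins hcp.1.1
  · intro t ht
    rcases (hmq _).1 ht with h | h
    · exact hcp.1.2 t h
    · exact Or.inr (Or.inr ⟨e, z, j, he, hz, hjom, h⟩)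
  · exact fun s τ b b' h h' => hcp.2.1 s τ b b' (hR _ _ _ h) (hR _ _ _ h')
  · exact fun e v v' h h' => hcp.2.2.1 e v v' (hV _ _ h) (hV _ _ h')
  · intro e' z' j' v' s h5 h6 hs h7 h8
    rcases (hmq _).1 h5 with h9 | h9
    · exact hpq _ (hcp.2.2.2.1 e' z' j' v' s h9 (hV _ _ h6) hs h7 h8)
    · exfalso
      obtain ⟨rfl, rfl, rfl⟩ := at_.FF.1 h9
      have h10 : Sub v' v := by
        rcases hm with ⟨_, h⟩ | ⟨_, h⟩
        · exact absurd (hV _ _ h6) (h v')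
        · exact h v' (hV _ _ h6)
      obtain ⟨y, hy⟩ := mem_dmn.1 h8
      have h11 : E j' (dmn v) := mem_dmn.2 ⟨y, h10 _ (h7 _ hy)⟩
      rw [← hj] at h11
      exact not_mem_self _ h11
  · exact fun e' v' h => hcp.2.2.2.2.1 e' v' (hV _ _ h)
  · intro B r q0 x i t v' h
    obtain ⟨h9, h10⟩ := hcp.2.2.2.2.2 B r q0 x i t v' (hV _ _ h)
    refine ⟨h9.trans hpq, fun n a ha => ?_⟩
    obtain ⟨a0, c', c, e1, e2, e3, e4, ⟨q', hq1, hq2⟩, v', hv1, hv2⟩ := h10 n a ha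
    exact ⟨a0, c', c, e1, e2, e3, e4, ⟨q', hq1.trans hpq, hq2⟩, v', hpq _ hv1, hv2⟩

theorem sep_exd (atm : ATMStmt) (psf : PSFStmt) (sqf : SQFStmt) (nod : NODStmt)
    (exn : EXNStmt) : EXDStmt := by
  intro M _ _ I p e e' hI hp he he' hn hn' hne
  have at_ : AtFacts M := atm M
  have ps : PsFacts M := psf M
  have sq : SqFacts M := sqf M
  obtain ⟨v, hv, hm⟩ := ex_max at_ ps sq (e := e) hp
  have hmom : E (dmn v) om := (sq.dm hv).1
  obtain ⟨q1, v', h1, h2, h3, h4, h5⟩ := exn M I p e' (dmn v) hI hp he' hn' hmom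
  have hm1 : MaxN q1 e v := by
    have h6 : ∀ w, E (lV e w) q1 → E (lV e w) p := fun w hw => by
      rcases h5 e w hw with h | h
      · exact h
      · exact absurd h hne
    rcases hm with ⟨h7, h8⟩ | ⟨h7, h8⟩
    · exact Or.inl ⟨h7, fun w hw => h8 w (h6 w hw)⟩
    · exact Or.inr ⟨h2 _ h7, fun w hw => h8 w (h6 w hw)⟩
  obtain ⟨y, hy⟩ := mem_dmn.1 h4
  obtain ⟨c', hc', rfl⟩ := (mem_PS.1 h1).2.2.2.2.1 e' v' h3 hn' _ _ hy
  obtain ⟨q, c, h6, h7, h8, h9, h10, h11⟩ := ex_step at_ ps sq nod hI h1 he hn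
    (finF.ins (a := c') finF.emp) hv hm1
  refine ⟨q, _, v', dmn v, c, c', h8, h2.trans h9, h10, h9 _ h3, hmom, ?_, hy, ?_⟩
  · unfold sx
    exact mem_ins.2 (Or.inr rfl)
  · rintro rfl
    exact h7 (mem_ins.2 (Or.inr rfl))

end SW.SEP
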