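import Pool.Agent.H63.SEP.Stmts

/-!
Project SEP, module EXN: extending the branch of a label or rule; common lemmas for the modules EXC,
EXF, EXD.
-/

set_option linter.unusedVariables false
set_option synthInstance.maxSize 100000

namespace SW.SEP

open SW

section
variable {M : Type} [SetStr M] [ZF M]

/-- there are natural numbers outside every finite set -/
theorem ex_fresh {F : M} (hF : Fnt F) : ∃ n, E n om ∧ ¬ E n F := by
  by_contra hcon
  push Not at hcon
  have h2 : Fnt (om : M) := finF.sub hF hcon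
  have h3 : ∀ n : M, E n om → card n = n := by
    intro n hn
    refine om_ind (C := fun n : M => card n = n) inferInstance ?_ ?_ n hn
    · exact (finF (M := M)).card_emp
    · intro n hn ih
      have : card (ins n n) = suc (card n) := finF.card_ins (finF.nat hn) (not_mem_self n)
      unfold suc at this ⊢
      rw [this, ih]
  have h4 : E (card (om : M)) om := finF.card_om h2
  have h5 : E (card (card (om : M))) (card om) := by
    refine finF.card_lt h2 (fun z hz => Trans_om _ h4 z hz) ?_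
    intro h
    rw [h] at h4
    exact not_mem_self _ h4
  rw [h3 _ h4] at h5
  exact not_mem_self _ h5

/-- the node `v` is the largest node of `e` in `p`, or it is empty and there are no nodes -/
def MaxN (p e v : M) : Prop :=
  (v = emp ∧ ∀ v', ¬ E (lV e v') p) ∨ (E (lV e v) p ∧ ∀ v', E (lV e v') p → Sub v' v)

theorem ex_max (at_ : AtFacts M) (ps : PsFacts M) (sq : SqFacts M) {I p e : M}
    (hp : E p (PS I)) : ∃ v, E v NDS ∧ MaxN p e v := by
  have hcp : Cond I p := mem_PS.1 hp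
  have key : ∀ x : M, Fnt x → (Sub x p → (∀ v', ¬ E (lV e v') x) ∨
      ∃ v, E (lV e v) x ∧ ∀ v', E (lV e v') x → Sub v' v) := by
    refine finF.ind (fun x => Sub x p → (∀ v', ¬ E (lV e v') x) ∨
      ∃ v, E (lV e v) x ∧ ∀ v', E (lV e v') x → Sub v' v) ?_ ?_ ?_
    · infer_instance
    · exact fun _ => Or.inl fun v' h => not_mem_emp _ h
    · intro x a hx hax ih hs
      have hs' : Sub x p := fun z hz => hs z (mem_ins.2 (Or.inl hz))
      by_cases ha : ∃ v, a = lV e v
      · obtain ⟨v, rfl⟩ := ha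
        have hvp := hs _ (mem_ins.2 (Or.inr rfl))
        right
        rcases ih hs' with h | ⟨v1, h1, h2⟩
        · refine ⟨v, mem_ins.2 (Or.inr rfl), fun v' hv' => ?_⟩
          rcases mem_ins.1 hv' with h3 | h3
          · exact absurd h3 (h v')
          · rw [(at_.VV.1 h3).2]
            exact Sub.refl v
        · rcases hcp.2.2.1 e v v1 hvp (hs' _ h1) with h3 | h3
          · refine ⟨v1, mem_ins.2 (Or.inl h1), fun v' hv' => ?_⟩
            rcases mem_ins.1 hv' with h4 | h4
            · exact h2 v' h4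
            · rw [(at_.VV.1 h4).2]
              exact h3
          · refine ⟨v, mem_ins.2 (Or.inr rfl), fun v' hv' => ?_⟩
            rcases mem_ins.1 hv' with h4 | h4
            · exact (h2 v' h4).trans h3
            · rw [(at_.VV.1 h4).2]
              exact Sub.refl v
      · have h5 : ∀ v', E (lV e v') (ins a x) → E (lV e v') x := by
          intro v' hv'
          rcases mem_ins.1 hv' with h4 | h4
          · exact h4
          · exact absurd ⟨v', h4.symm⟩ ha
        rcases ih hs' with h | ⟨v1, h1, h2⟩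
        · exact Or.inl fun v' hv' => h v' (h5 v' hv')
        · exact Or.inr ⟨v1, mem_ins.2 (Or.inl h1), fun v' hv' => h2 v' (h5 v' hv')⟩
  rcases key p hcp.1.1 (Sub.refl p) with h | ⟨v, h1, h2⟩
  · exact ⟨emp, sq.nil, Or.inl ⟨rfl, h⟩⟩
  · exact ⟨v, (ps.lVm hp h1).2, Or.inr ⟨h1, h2⟩⟩

/-- a value `f c` such that the new node is not mentioned -/
theorem ex_val (at_ : AtFacts M) (sq : SqFacts M) {p v D : M} (hp : Fnt p) (hD : Fnt D)
    (hv : E v NDS) (f g : M → M) (hf : ∀ c, E c om → E (f c) LL) (hg : Fn1 g)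
    (hgf : ∀ c, g (f c) = c) :
    ∃ c, E c om ∧ ¬ E c D ∧ ∀ τ b, ¬ E (gR (sx v (f c)) τ b) p := by
  have hG : Fn1 (fun t : M => g (app (p1 (p2 (p2 t))) (dmn v))) := hg.comp1 inferInstance
  obtain ⟨c, hc, hcF⟩ := ex_fresh (finF.bun (finF.img _ hG hp) hD)
  rw [mem_bun, mem_img' hG] at hcF
  push Not at hcF
  refine ⟨c, hc, hcF.2, fun τ b h => ?_⟩
  refine hcF.1 _ h ?_
  simp only [gR, p2_opair, p1_opair]
  have h1 := sq.sxx (A := LL) hv (hf c hc)
  have h2 := (sq.dm h1.1).2
  have h3 : E (opair (dmn v) (f c)) (sx v (f c)) := by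
    unfold sx
    exact mem_ins.2 (Or.inr rfl)
  rw [(sq.fapp' h2 h3).2.2, hgf]

theorem ex_nonc {c : M} (h : E c om) : E (nonc c) (LL : M) := by
  unfold LL nonc
  rw [mem_bun, mem_prod, mem_sing]
  exact Or.inl ⟨rfl, h⟩

/-- one step for a label or rule -/
theorem ex_step (at_ : AtFacts M) (ps : PsFacts M) (sq : SqFacts M) (nod : NODStmt)
    {I p e v D : M} (hI : Sy I) (hp : E p (PS I)) (he : E e I) (hn : Nc e) (hD : Fnt D)
    (hv : E v NDS) (hm : MaxN p e v) :
    ∃ q c, E c om ∧ ¬ E c D ∧ E q (PS I) ∧ Sub p q ∧ E (lV e (sx v (nonc c))) q ∧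
      ∀ e' v', E (lV e' v') q → E (lV e' v') p ∨ (e' = e ∧ v' = sx v (nonc c)) := by
  obtain ⟨c, h1, h2, h3⟩ := ex_val at_ sq (ps.fnt hp) hD hv (fun c => nonc c) (fun t => p2 t)
    (fun c hc => ex_nonc hc) p2_df (fun c => by unfold nonc; exact p2_opair _ _)
  obtain ⟨q, h4, h5, h6, h7, _, _⟩ := nod M I p e v (nonc c) hI hp he hv (ex_nonc h1) hm
    (fun _ => ⟨c, h1, rfl⟩) (fun B r q x i t h => absurd ⟨B, r, q, x, i, t, h⟩ (at_.nc hn)) h3
  exact ⟨q, c, h1, h2, h4, h5, h6, h7⟩

end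

theorem sep_exn (atm : ATMStmt) (psf : PSFStmt) (sqf : SQFStmt) (nod : NODStmt) : EXNStmt := by
  intro M _ _ I p e n hI hp he hn hnom
  have at_ : AtFacts M := atm M
  have ps : PsFacts M := psf M
  have sq : SqFacts M := sqf M
  refine om_ind (C := fun n : M => ∃ q v, E q (PS I) ∧ Sub p q ∧ E (lV e v) q ∧ E n (dmn v) ∧
    ∀ e' v', E (lV e' v') q → E (lV e' v') p ∨ e' = e) ?_ ?_ ?_ n hnom
  · infer_instance
  · obtain ⟨v, hv, hm⟩ := ex_max at_ ps sq (e := e) hp
    obtain ⟨q, c, h1, h2, h3, h4, h5, h6⟩ := ex_step at_ ps sq nod hI hp he hn finF.emp hv hm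
    refine ⟨q, _, h3, h4, h5, ?_, fun e' v' h => (h6 e' v' h).imp id And.left⟩
    rw [(sq.sxx (A := LL) hv (ex_nonc h1)).2.1, mem_suc]
    by_cases h : dmn v = emp
    · exact Or.inr h.symm
    · exact Or.inl (emp_mem_ord (Ord_nat (sq.dm hv).1) h)
  · rintro n hn' ⟨q, v, h1, h2, h3, h4, h5⟩
    obtain ⟨w, hw, hm⟩ := ex_max at_ ps sq (e := e) h1
    obtain ⟨q', c, h6, h7, h8, h9, h10, h11⟩ := ex_step at_ ps sq nod hI h1 he hn finF.emp hw hm
    refine ⟨q', _, h8, h2.trans h9, h10, ?_, fun e' v' h => ?_⟩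
    · rw [(sq.sxx (A := LL) hw (ex_nonc h6)).2.1]
      have h12 : Sub v w := by
        rcases hm with ⟨_, h⟩ | ⟨_, h⟩
        · exact absurd h3 (h v)
        · exact h v h3
      have h13 : E n (dmn w) := by
        obtain ⟨y, hy⟩ := mem_dmn.1 h4
        exact mem_dmn.2 ⟨y, h12 _ hy⟩
      exact (suc_mem_suc (Ord_nat hn') (Ord_nat (sq.dm hw).1)).2 h13
    · rcases h11 e' v' h with h12 | h12
      · exact h5 e' v' h12
      · exact Or.inr h12.1

end SW.SEP
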