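import Pool.Agent.H63.SEP.Stmts

/-!
Project SEP, module NOD: adding one node to the branch of an index.
-/

set_option linter.unusedVariables false
set_option synthInstance.maxSize 100000

namespace SW.SEP

open SW

section
variable {M : Type} [SetStr M] [ZF M]

/-- the new atoms for the promises -/
noncomputable def nodG (p e w : M) : M :=
  img (sep p (fun t => ∃ z j, t = lF e z j ∧ E j (dmn w)))
    (fun t => gR w (res (p1 (p2 (p2 t))) (dmn w)) one)

theorem mem_nodG {p e w g : M} : E g (nodG p e w) ↔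
    ∃ z j, E (lF e z j) p ∧ E j (dmn w) ∧ g = gR w (res z (dmn w)) one := by
  unfold nodG
  rw [mem_img]
  constructor
  · rintro ⟨t, ht, rfl⟩
    rw [mem_sep] at ht
    obtain ⟨h1, z, j, rfl, h2⟩ := ht
    refine ⟨z, j, h1, h2, ?_⟩
    simp only [lF, p2_opair, p1_opair]
  · rintro ⟨z, j, h1, h2, rfl⟩
    refine ⟨lF e z j, mem_sep.2 ⟨h1, z, j, rfl, h2⟩, ?_⟩
    simp only [lF, p2_opair, p1_opair]

theorem fnt_nodG {p e w : M} (hp : Fnt p) : Fnt (nodG p e w) := by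
  unfold nodG
  refine finF.img _ ?_ (finF.sub hp (fun z hz => (mem_sep.1 hz).1))
  infer_instance

theorem dmn_emp' : dmn (emp : M) = emp := by
  refine eq_emp fun z hz => ?_
  obtain ⟨y, hy⟩ := mem_dmn.1 hz
  exact not_mem_emp _ hy

theorem sub_emp' {s : M} (h : Sub s emp) : s = emp := eq_emp fun z hz => not_mem_emp _ (h z hz)

end

theorem sep_nod (atm : ATMStmt) (psf : PSFStmt) (sqf : SQFStmt) : NODStmt := by
  intro M _ _ I p e v a hI hp he hv ha h1 h2 h3 h4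
  have at_ : AtFacts M := atm M
  have ps : PsFacts M := psf M
  have sq : SqFacts M := sqf M
  obtain ⟨w, hw⟩ : ∃ w, w = sx v a := ⟨_, rfl⟩
  obtain ⟨hw1, hw2, hw3, hw4⟩ := sq.sxx (A := LL) hv ha
  rw [← hw] at hw1 hw2 hw3 hw4 h4
  have hdw : E (dmn w) om := (sq.dm hw1).1
  obtain ⟨q, hq⟩ : ∃ q, q = bun (ins (lV e w) p) (nodG p e w) := ⟨_, rfl⟩
  have hmq : ∀ t : M, E t q ↔ (E t p ∨ t = lV e w) ∨
      ∃ z j, E (lF e z j) p ∧ E j (dmn w) ∧ t = gR w (res z (dmn w)) one := by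
    intro t
    rw [hq, mem_bun, mem_ins, mem_nodG]
  have hpq : Sub p q := fun t ht => (hmq t).2 (Or.inl (Or.inl ht))
  have hcp : Cond I p := mem_PS.1 hp
  have hmw : ∀ t : M, E t w ↔ E t v ∨ t = opair (dmn v) a := by
    intro t
    rw [hw]
    unfold sx
    rw [mem_ins]
  have hV : ∀ e' v' : M, E (lV e' v') q → E (lV e' v') p ∨ (e' = e ∧ v' = w) := by
    intro e' v' h
    rcases (hmq _).1 h with (h | h) | ⟨z, j, _, _, h⟩
    · exact Or.inl h
    · exact Or.inr (at_.VV.1 h)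
    · exact absurd h.symm at_.RV
  have hF : ∀ e' z j : M, E (lF e' z j) q → E (lF e' z j) p := by
    intro e' z j h
    rcases (hmq _).1 h with (h | h) | ⟨z, j, _, _, h⟩
    · exact h
    · exact absurd h.symm at_.VF
    · exact absurd h.symm at_.RF
  have hR : ∀ s τ b : M, E (gR s τ b) q → E (gR s τ b) p ∨ (s = w ∧ b = one) := by
    intro s τ b h
    rcases (hmq _).1 h with (h | h) | ⟨z, j, _, _, h⟩
    · exact Or.inl h
    · exact absurd h at_.RV
    · obtain ⟨h5, _, h6⟩ := at_.RR.1 h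
      exact Or.inr ⟨h5, h6⟩
  -- members of `v` come from a node of `p`
  have hvp : ∀ t : M, E t v → E (lV e v) p := by
    intro t ht
    rcases h1 with ⟨h, _⟩ | ⟨h, _⟩
    · rw [h] at ht
      exact absurd ht (not_mem_emp t)
    · exact h
  refine ⟨q, mem_PS.2 ⟨⟨?_, ?_⟩, ?_, ?_, ?_, ?_, ?_⟩, hpq, (hmq _).2 (Or.inl (Or.inr (by rw [hw]))), ?_, hF, ?_⟩
  · rw [hq]
    exact finF.bun (finF.ins hcp.1.1) (fnt_nodG hcp.1.1)
  · intro t ht
    rcases (hmq _).1 ht with (h | h) | ⟨z, j, h5, h6, h⟩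
    · exact hcp.1.2 t h
    · exact Or.inr (Or.inl ⟨e, w, he, hw1, h⟩)
    · obtain ⟨_, hz, hj⟩ := ps.lFm hp h5
      exact Or.inl ⟨w, res z (dmn w), one, hw1, (sq.rsi (mem_BS.1 hz) hdw).1,
        at_.mem2.2 (Or.inr rfl), h⟩
  · intro s τ b b' h h'
    have key : ∀ b, E (gR s τ b) q → s = w → b = one := by
      intro b hb hs
      rcases hR s τ b hb with h5 | h5
      · rw [hs] at h5
        exact absurd h5 (h4 _ _)
      · exact h5.2
    rcases hR s τ b h with h5 | h5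
    · rcases hR s τ b' h' with h6 | h6
      · exact hcp.2.1 s τ b b' h5 h6
      · rw [h6.2, key b h h6.1]
    · rw [h5.2, key b' h' h5.1]
  · intro e' v' v'' h h'
    have key : ∀ v', E (lV e v') p → Sub v' w := by
      intro v' hv'
      rcases h1 with ⟨_, h⟩ | ⟨_, h⟩
      · exact absurd hv' (h v')
      · exact (h v' hv').trans hw3
    rcases hV e' v' h with h5 | ⟨rfl, rfl⟩
    · rcases hV e' v'' h' with h6 | ⟨rfl, rfl⟩
      · exact hcp.2.2.1 e' v' v'' h5 h6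
      · exact Or.inl (key v' h5)
    · rcases hV e' v'' h' with h6 | ⟨_, rfl⟩
      · exact Or.inr (key v'' h6)
      · exact Or.inl (Sub.refl _)
  · intro e' z j v' s h5 h6 hs h7 hj
    have h5' := hF _ _ _ h5
    rcases hV e' v' h6 with h8 | ⟨rfl, rfl⟩
    · exact hpq _ (hcp.2.2.2.1 e' z j v' s h5' h8 hs h7 hj)
    · have h9 : s = v' ∨ Sub s v := by
        rw [hw] at h7 ⊢
        exact sq.sxs (A := LL) hv ha hs h7
      rcases h9 with h9 | h9
      · rw [h9] at hj ⊢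
        exact (hmq _).2 (Or.inr ⟨z, j, h5', hj, rfl⟩)
      · obtain ⟨y, hy⟩ := mem_dmn.1 hj
        exact hpq _ (hcp.2.2.2.1 e' z j v s h5' (hvp _ (h9 _ hy)) hs h9 hj)
  · intro e' v' h hn n a' ha'
    rcases hV e' v' h with h5 | ⟨rfl, rfl⟩
    · exact hcp.2.2.2.2.1 e' v' h5 hn n a' ha'
    · rcases (hmw _).1 ha' with h6 | h6
      · exact hcp.2.2.2.2.1 e' v (hvp _ h6) hn n a' h6
      · rw [opair_inj] at h6
        rw [h6.2]
        exact h2 hn
  · intro B r q0 x i t v' h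
    rcases hV _ v' h with h5 | ⟨h5, rfl⟩
    · obtain ⟨h9, h10⟩ := hcp.2.2.2.2.2 B r q0 x i t v' h5
      refine ⟨h9.trans hpq, fun n a ha => ?_⟩
      obtain ⟨a0, c', c, e1, e2, e3, e4, ⟨q', hq1, hq2⟩, v', hv1, hv2⟩ := h10 n a ha
      exact ⟨a0, c', c, e1, e2, e3, e4, ⟨q', hq1.trans hpq, hq2⟩, v', hpq _ hv1, hv2⟩
    · obtain ⟨h9, a0, c', c, e1, e2, e3, e4, ⟨q', hq1, hq2⟩, v'', hv1, hv2⟩ :=
        h3 B r q0 x i t h5.symm
      refine ⟨h9.trans hpq, fun n a' ha' => ?_⟩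
      rcases (hmw _).1 ha' with h6 | h6
      · have h7 := hvp _ h6
        rw [← h5] at h7
        obtain ⟨_, h10⟩ := hcp.2.2.2.2.2 B r q0 x i t v h7
        obtain ⟨a0, c', c, e1, e2, e3, e4, ⟨q', hq1, hq2⟩, v', hv1, hv2⟩ := h10 n a' h6
        exact ⟨a0, c', c, e1, e2, e3, e4, ⟨q', hq1.trans hpq, hq2⟩, v', hpq _ hv1, hv2⟩
      · rw [opair_inj] at h6
        rw [h6.1, h6.2]
        exact ⟨a0, c', c, e1, e2, e3, e4, ⟨q', hq1.trans hpq, hq2⟩, v'', hpq _ hv1, hv2⟩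
  · rw [← hw]
    exact hV
  · rw [← hw]
    exact hR

end SW.SEP
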