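import Pool.Agent.H63.SEP.Stmts

/-!
Project SEP, module PSF: facts about conditions.
-/

set_option linter.unusedVariables false
set_option synthInstance.maxSize 100000

namespace SW.SEP

open SW

section
variable {M : Type} [SetStr M] [ZF M]

theorem psf_WV {v : M} (h : E v NDS) : E (opair emp v) (WW : M) := by
  simp only [WW, mem_bun, mem_prod, mem_sing]
  exact Or.inr (Or.inl ⟨trivial, h⟩)

theorem psf_WF {z j : M} (h : E z BS) (h' : E j om) : E (opair one (opair z j)) (WW : M) := by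
  simp only [WW, mem_bun, mem_prod, mem_sing]
  exact Or.inr (Or.inr ⟨trivial, h, h'⟩)

theorem psf_WR {s τ b : M} (h : E s NDS) (h' : E τ (SQ om)) (h'' : E b two) :
    E (opair two (opair s (opair τ b))) (WW : M) := by
  simp only [WW, mem_bun, mem_prod, mem_sing]
  exact Or.inl ⟨trivial, h, h', h''⟩

theorem psf_prod {I J : M} (h : Sub I J) : Sub (prod (ins emp I) (WW : M)) (prod (ins emp J) WW) := by
  intro z hz
  obtain ⟨a, b, ha, hb, rfl⟩ := mem_prod'.1 hz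
  refine mem_prod.2 ⟨?_, hb⟩
  rw [mem_ins] at ha ⊢
  exact ha.imp (h a) id

variable (at_ : AtFacts M)
include at_

theorem psf_gRm {I p s τ b : M} (hp : Cond I p) (h : E (gR s τ b) p) :
    E s NDS ∧ E τ (SQ om) ∧ E b two := by
  rcases hp.1.2 _ h with ⟨s', τ', b', hs, hτ, hb, he⟩ | ⟨e, v, _, _, he⟩ | ⟨e, z, j, _, _, _, he⟩
  · obtain ⟨rfl, rfl, rfl⟩ := at_.RR.1 he
    exact ⟨hs, hτ, hb⟩
  · exact absurd he at_.RV
  · exact absurd he at_.RF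

theorem psf_lVm {I p e v : M} (hp : Cond I p) (h : E (lV e v) p) : E e I ∧ E v NDS := by
  rcases hp.1.2 _ h with ⟨s', τ', b', hs, hτ, hb, he⟩ | ⟨e', v', h1, h2, he⟩ |
    ⟨e', z, j, _, _, _, he⟩
  · exact absurd he.symm at_.RV
  · obtain ⟨rfl, rfl⟩ := at_.VV.1 he
    exact ⟨h1, h2⟩
  · exact absurd he at_.VF

theorem psf_lFm {I p e z j : M} (hp : Cond I p) (h : E (lF e z j) p) :
    E e I ∧ E z BS ∧ E j om := by
  rcases hp.1.2 _ h with ⟨s', τ', b', hs, hτ, hb, he⟩ | ⟨e', v', h1, h2, he⟩ |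
    ⟨e', z', j', h1, h2, h3, he⟩
  · exact absurd he.symm at_.RF
  · exact absurd he.symm at_.VF
  · obtain ⟨rfl, rfl, rfl⟩ := at_.FF.1 he
    exact ⟨h1, h2, h3⟩

theorem psf_gRr {I J p s τ b : M} (hp : Cond I p) :
    (E (gR s τ b) (rJ J p) ↔ E (gR s τ b) p) := by
  rw [mem_rJ]
  refine ⟨fun h => h.1, fun h => ⟨h, ?_⟩⟩
  obtain ⟨h1, h2, h3⟩ := psf_gRm at_ hp h
  exact mem_prod.2 ⟨mem_ins.2 (Or.inr rfl), psf_WR h1 h2 h3⟩

theorem psf_lVr {I J p e v : M} (hI : Sy I) (hp : Cond I p) :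
    (E (lV e v) (rJ J p) ↔ E (lV e v) p ∧ E e J) := by
  rw [mem_rJ]
  refine ⟨fun h => ⟨h.1, ?_⟩, fun h => ⟨h.1, ?_⟩⟩
  · obtain ⟨h1, h2⟩ := psf_lVm at_ hp h.1
    have h3 := (mem_prod.1 h.2).1
    rw [mem_ins] at h3
    refine h3.resolve_right ?_
    rintro rfl
    exact at_.sy0 hI h1
  · obtain ⟨h1, h2⟩ := psf_lVm at_ hp h.1
    exact mem_prod.2 ⟨mem_ins.2 (Or.inl h.2), psf_WV h2⟩

theorem psf_lFr {I J p e z j : M} (hI : Sy I) (hp : Cond I p) :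
    (E (lF e z j) (rJ J p) ↔ E (lF e z j) p ∧ E e J) := by
  rw [mem_rJ]
  refine ⟨fun h => ⟨h.1, ?_⟩, fun h => ⟨h.1, ?_⟩⟩
  · obtain ⟨h1, h2, h3⟩ := psf_lFm at_ hp h.1
    have h4 := (mem_prod.1 h.2).1
    rw [mem_ins] at h4
    refine h4.resolve_right ?_
    rintro rfl
    exact at_.sy0 hI h1
  · obtain ⟨h1, h2, h3⟩ := psf_lFm at_ hp h.1
    exact mem_prod.2 ⟨mem_ins.2 (Or.inl h.2), psf_WF h2 h3⟩

omit at_ in
/-- a condition over `B` which is a subset of `p` is a subset of the restriction of `p` to `J`,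
if `B` is a subset of `J` -/
theorem psf_sub {B J p q : M} (hB : Sub B J) (hq : E q (PS B)) (hqp : Sub q p) :
    Sub q (rJ J p) := by
  intro z hz
  exact mem_rJ.2 ⟨hqp z hz, psf_prod hB z (shp_sub (mem_PS.1 hq).1 z hz)⟩

theorem psf_rst {I J p : M} (hI : Sy I) (hJ : Sy J) (hp : Cond I p) : Cond J (rJ J p) := by
  have hs : Sub (rJ J p) p := fun z hz => (mem_rJ.1 hz).1
  obtain ⟨h1, h2, h3, h4, h5, h6⟩ := id hp
  refine ⟨⟨finF.sub h1.1 hs, fun a ha => ?_⟩, ?_, ?_, ?_, ?_, ?_⟩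
  · rcases h1.2 a (hs a ha) with h | ⟨e, v, he, hv, rfl⟩ | ⟨e, z, j, he, hz, hj, rfl⟩
    · exact Or.inl h
    · exact Or.inr (Or.inl ⟨e, v, ((psf_lVr at_ hI hp).1 ha).2, hv, rfl⟩)
    · exact Or.inr (Or.inr ⟨e, z, j, ((psf_lFr at_ hI hp).1 ha).2, hz, hj, rfl⟩)
  · exact fun s τ b b' h h' => h2 s τ b b' (hs _ h) (hs _ h')
  · exact fun e v v' h h' => h3 e v v' (hs _ h) (hs _ h')
  · intro e z j v s ha hb hc hd he
    exact (psf_gRr at_ hp).2 (h4 e z j v s (hs _ ha) (hs _ hb) hc hd he)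
  · exact fun e v h => h5 e v (hs _ h)
  · intro B r q x i t v h
    obtain ⟨h7, h8⟩ := (psf_lVr at_ hI hp).1 h
    obtain ⟨h9, h10⟩ := h6 B r q x i t v h7
    obtain ⟨_, _, hBJ, _, hrB, _, hqB, hxB, _⟩ := at_.sycd hJ h8
    refine ⟨psf_sub hBJ hqB h9, fun n a ha => ?_⟩
    obtain ⟨a0, c', c, e1, e2, e3, e4, ⟨q', hq1, hq2⟩, v', hv1, hv2⟩ := h10 n a ha
    refine ⟨a0, c', c, e1, e2, e3, e4, ⟨q', ?_, hq2⟩, v', ?_, hv2⟩
    · obtain ⟨q'', a'', h11, _, h12⟩ := hxB.2 _ hq2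
      rw [opair_inj] at h12
      obtain ⟨rfl, -⟩ := h12
      exact psf_sub hBJ h11 hq1
    · exact (psf_lVr at_ hI hp).2 ⟨hv1, hBJ _ hrB⟩

theorem psf_ama {I J p p' : M} (hI : Sy I) (hJ : Sy J) (hp : Cond I p) (hp' : Cond J p')
    (hs : Sub (rJ J p) p') : Cond (bun I J) (bun p p') := by
  have hR : ∀ {s τ b : M}, E (gR s τ b) (bun p p') → E (gR s τ b) p' := by
    intro s τ b h
    rcases mem_bun.1 h with h | h
    · exact hs _ ((psf_gRr at_ hp).2 h)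
    · exact h
  have hV : ∀ {e v : M}, E e J → E (lV e v) (bun p p') → E (lV e v) p' := by
    intro e v he h
    rcases mem_bun.1 h with h | h
    · exact hs _ ((psf_lVr at_ hI hp).2 ⟨h, he⟩)
    · exact h
  have hF : ∀ {e z j : M}, E e J → E (lF e z j) (bun p p') → E (lF e z j) p' := by
    intro e z j he h
    rcases mem_bun.1 h with h | h
    · exact hs _ ((psf_lFr at_ hI hp).2 ⟨h, he⟩)
    · exact h
  have hV' : ∀ {e v : M}, ¬ E e J → E (lV e v) (bun p p') → E (lV e v) p := by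
    intro e v he h
    rcases mem_bun.1 h with h | h
    · exact h
    · exact absurd (psf_lVm at_ hp' h).1 he
  have hF' : ∀ {e z j : M}, ¬ E e J → E (lF e z j) (bun p p') → E (lF e z j) p := by
    intro e z j he h
    rcases mem_bun.1 h with h | h
    · exact h
    · exact absurd (psf_lFm at_ hp' h).1 he
  have hl : Sub p (bun p p') := fun z hz => mem_bun.2 (Or.inl hz)
  have hr : Sub p' (bun p p') := fun z hz => mem_bun.2 (Or.inr hz)
  have hIl : Sub I (bun I J) := fun z hz => mem_bun.2 (Or.inl hz)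
  have hJr : Sub J (bun I J) := fun z hz => mem_bun.2 (Or.inr hz)
  refine ⟨⟨finF.bun hp.1.1 hp'.1.1, fun a ha => ?_⟩, ?_, ?_, ?_, ?_, ?_⟩
  · rcases mem_bun.1 ha with ha | ha
    · rcases hp.1.2 a ha with h | ⟨e, v, he, h⟩ | ⟨e, z, j, he, h⟩
      · exact Or.inl h
      · exact Or.inr (Or.inl ⟨e, v, hIl _ he, h⟩)
      · exact Or.inr (Or.inr ⟨e, z, j, hIl _ he, h⟩)
    · rcases hp'.1.2 a ha with h | ⟨e, v, he, h⟩ | ⟨e, z, j, he, h⟩
      · exact Or.inl h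
      · exact Or.inr (Or.inl ⟨e, v, hJr _ he, h⟩)
      · exact Or.inr (Or.inr ⟨e, z, j, hJr _ he, h⟩)
  · exact fun s τ b b' h h' => hp'.2.1 s τ b b' (hR h) (hR h')
  · intro e v v' h h'
    by_cases he : E e J
    · exact hp'.2.2.1 e v v' (hV he h) (hV he h')
    · exact hp.2.2.1 e v v' (hV' he h) (hV' he h')
  · intro e z j v s ha hb hc hd hj
    by_cases he : E e J
    · exact hr _ (hp'.2.2.2.1 e z j v s (hF he ha) (hV he hb) hc hd hj)
    · exact hl _ (hp.2.2.2.1 e z j v s (hF' he ha) (hV' he hb) hc hd hj)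
  · intro e v h
    rcases mem_bun.1 h with h | h
    · exact hp.2.2.2.2.1 e v h
    · exact hp'.2.2.2.2.1 e v h
  · intro B r q x i t v h
    rcases mem_bun.1 h with h | h
    · obtain ⟨h9, h10⟩ := hp.2.2.2.2.2 B r q x i t v h
      refine ⟨h9.trans hl, fun n a ha => ?_⟩
      obtain ⟨a0, c', c, e1, e2, e3, e4, ⟨q', hq1, hq2⟩, v', hv1, hv2⟩ := h10 n a ha
      exact ⟨a0, c', c, e1, e2, e3, e4, ⟨q', hq1.trans hl, hq2⟩, v', hl _ hv1, hv2⟩
    · obtain ⟨h9, h10⟩ := hp'.2.2.2.2.2 B r q x i t v h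
      refine ⟨h9.trans hr, fun n a ha => ?_⟩
      obtain ⟨a0, c', c, e1, e2, e3, e4, ⟨q', hq1, hq2⟩, v', hv1, hv2⟩ := h10 n a ha
      exact ⟨a0, c', c, e1, e2, e3, e4, ⟨q', hq1.trans hr, hq2⟩, v', hr _ hv1, hv2⟩

end

theorem sep_psf (atm : ATMStmt) : PSFStmt := by
  intro M _ _
  have at_ : AtFacts M := atm M
  refine ⟨?_, ?_, ?_, ?_, ?_, ?_, ?_, ?_, ?_, ?_, ?_, ?_, ?_⟩
  · intro I J p h hp
    rw [mem_PS] at hp ⊢
    refine ⟨⟨hp.1.1, fun a ha => ?_⟩, hp.2⟩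
    rcases hp.1.2 a ha with h1 | ⟨e, v, he, h1⟩ | ⟨e, z, j, he, h1⟩
    · exact Or.inl h1
    · exact Or.inr (Or.inl ⟨e, v, h _ he, h1⟩)
    · exact Or.inr (Or.inr ⟨e, z, j, h _ he, h1⟩)
  · exact fun hp => (mem_PS.1 hp).1.1
  · exact fun hp h => psf_gRm at_ (mem_PS.1 hp) h
  · exact fun hp h => psf_lVm at_ (mem_PS.1 hp) h
  · exact fun hp h => psf_lFm at_ (mem_PS.1 hp) h
  · exact fun hp => psf_gRr at_ (mem_PS.1 hp)
  · exact fun hI hp => psf_lVr at_ hI (mem_PS.1 hp)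
  · exact fun hI hp => psf_lFr at_ hI (mem_PS.1 hp)
  · exact fun z hz => (mem_rJ.1 hz).1
  · exact fun h z hz => mem_rJ.2 ⟨h z (mem_rJ.1 hz).1, (mem_rJ.1 hz).2⟩
  · intro I J p hp h
    refine ext fun z => ⟨fun hz => (mem_rJ.1 hz).1, fun hz => mem_rJ.2 ⟨hz, ?_⟩⟩
    exact psf_prod h z (shp_sub (mem_PS.1 hp).1 z hz)
  · exact fun hI hJ hp => mem_PS.2 (psf_rst at_ hI hJ (mem_PS.1 hp))
  · exact fun hI hJ hp hp' hs => mem_PS.2 (psf_ama at_ hI hJ (mem_PS.1 hp) (mem_PS.1 hp') hs)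

end SW.SEP
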